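import Pool.Agent.Helper79.KW.Base
import Pool.Agent.Helper28.KW.FC
import Pool.Agent.Helper87.KW.TA1

/-! KW-SE2: approximate units. -/

open CategoryTheory Topology
open scoped ENNReal

namespace Pool.Agent.KW

universe u v

section SE

variable {X : Type u} [Groupoid.{u} X] [TopologicalSpace X] [TopologicalSpace (Arr X)]
variable [EtaleGroupoid X] {I A B : GAlg.{u, v} X} (ι : GHom I A) (π : GHom A B)

namespace SE2

theorem sec_bdd (A : GAlg.{u, v} X) (a : ∀ x, A.fib x) (ha : a ∈ A.sec) :
    ∃ R : ℝ, 0 < R ∧ ∀ x, ‖a x‖ ≤ R := by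
  have hT2 : T2Space X := t2_unit
  by_contra hcon
  push Not at hcon
  have hne : ∀ n : ℕ, {x | ((n : ℝ) + 1) ≤ ‖a x‖}.Nonempty := by
    intro n
    obtain ⟨x, hx⟩ := hcon ((n : ℝ) + 1) (by positivity)
    exact ⟨x, hx.le⟩
  have hcpt : ∀ n : ℕ, IsCompact {x | ((n : ℝ) + 1) ≤ ‖a x‖} := fun n =>
    A.vanish a ha _ (by positivity)
  have h1 := IsCompact.nonempty_iInter_of_sequence_nonempty_isCompact_isClosed
    (fun n : ℕ => {x | ((n : ℝ) + 1) ≤ ‖a x‖}) (fun n x hx => by
      have h2 : ((n + 1 : ℕ) : ℝ) + 1 ≤ ‖a x‖ := hx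
      push_cast at h2
      change (n : ℝ) + 1 ≤ ‖a x‖
      linarith) hne (hcpt 0) (fun n => (hcpt n).isClosed)
  obtain ⟨x, hx⟩ := h1
  rw [Set.mem_iInter] at hx
  obtain ⟨n, hn⟩ := exists_nat_gt ‖a x‖
  have h3 : (n : ℝ) + 1 ≤ ‖a x‖ := hx n
  linarith

/-- the function used for the functional calculus -/
noncomputable def phi (d t : ℝ) : ℝ := √(max t 0 / (max t 0 + d))

theorem phi_cont {d : ℝ} (hd : 0 < d) : Continuous (phi d) := by
  unfold phi
  refine Real.continuous_sqrt.comp (Continuous.div (by fun_prop) (by fun_prop) fun t => ?_)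
  have := le_max_right t 0
  positivity

theorem phi_zero (d : ℝ) : phi d 0 = 0 := by simp [phi]

theorem phi_sq {d : ℝ} (hd : 0 < d) (t : ℝ) : phi d t * phi d t = max t 0 / (max t 0 + d) := by
  unfold phi
  refine Real.mul_self_sqrt ?_
  have := le_max_right t 0
  positivity

theorem abs_phi_le {d : ℝ} (hd : 0 < d) (t : ℝ) : |phi d t| ≤ 1 := by
  unfold phi
  rw [abs_of_nonneg (Real.sqrt_nonneg _)]
  have := le_max_right t 0
  rw [Real.sqrt_le_one, div_le_one (by positivity)]
  linarith

section Alg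

variable {C : Type*} [NonUnitalCStarAlgebra C]

theorem est {r : ℕ} (e : Fin r → C) {d δ : ℝ} (hδ : 0 < δ) (hd : d = 4 * δ ^ 2) (i : Fin r) :
    ‖e i - e i * (star (cfcₙ (phi d) (∑ j, star (e j) * e j)) *
      cfcₙ (phi d) (∑ j, star (e j) * e j))‖ ≤ δ := by
  let _ := CStarAlgebra.spectralOrder C
  have _ := CStarAlgebra.spectralOrderedRing C
  have hd0 : 0 < d := by rw [hd]; positivity
  set s : C := ∑ j, star (e j) * e j with hs
  have hsa : IsSelfAdjoint s := by
    rw [hs]
    exact isSelfAdjoint_sum _ fun j _ => IsSelfAdjoint.star_mul_self (e j)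
  have hs0 : 0 ≤ s := Finset.sum_nonneg fun j _ => star_mul_self_nonneg (e j)
  set b : C := cfcₙ (phi d) s with hb
  have hbsa : IsSelfAdjoint b := cfcₙ_predicate _ _
  have hcont := phi_cont hd0
  set q : C := star b * b with hq
  have hqe : q = cfcₙ (fun t => phi d t * phi d t) s := by
    rw [hq, hbsa.star_eq, hb, ← cfcₙ_mul (phi d) (phi d) s hcont.continuousOn (phi_zero d)
      hcont.continuousOn (phi_zero d)]
  have hqsa : star q = q := by rw [hq, star_mul, star_star]
  set y : Fin r → C := fun j => e j - e j * q with hy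
  -- the sum of the squares
  have hsum : ∑ j, star (y j) * y j = s - s * q - q * s + q * s * q := by
    have h1 : ∀ j, star (y j) * y j = star (e j) * e j - (star (e j) * e j) * q -
        q * (star (e j) * e j) + q * (star (e j) * e j) * q := by
      intro j
      simp only [hy, star_sub, star_mul, hqsa]
      noncomm_ring
    simp only [h1, Finset.sum_add_distrib, Finset.sum_sub_distrib, ← Finset.mul_sum,
      ← Finset.sum_mul]
    rfl
  have hcs : Continuous fun t : ℝ => phi d t * phi d t := hcont.mul hcont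
  have hqs0 : phi d 0 * phi d 0 = 0 := by rw [phi_zero, mul_zero]
  have hcalc : s - s * q - q * s + q * s * q =
      cfcₙ (fun t : ℝ => t * (1 - phi d t * phi d t) ^ 2) s := by
    have e0 : s = cfcₙ (fun t : ℝ => t) s := (cfcₙ_id' ℝ s).symm
    have e1 : s * q = cfcₙ (fun t : ℝ => t * (phi d t * phi d t)) s := by
      rw [cfcₙ_mul (fun t : ℝ => t) (fun t => phi d t * phi d t) s (by fun_prop) (by simp)
        hcs.continuousOn hqs0, ← hqe, ← e0]
    have e2 : q * s = cfcₙ (fun t : ℝ => (phi d t * phi d t) * t) s := by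
      rw [cfcₙ_mul (fun t => phi d t * phi d t) (fun t : ℝ => t) s hcs.continuousOn hqs0
        (by fun_prop) (by simp), ← hqe, ← e0]
    have e3 : q * s * q = cfcₙ (fun t : ℝ => (phi d t * phi d t) * t * (phi d t * phi d t)) s := by
      rw [cfcₙ_mul (fun t => (phi d t * phi d t) * t) (fun t : ℝ => phi d t * phi d t) s
        (hcs.mul continuous_id).continuousOn (by simp) hcs.continuousOn hqs0, ← hqe, ← e2]
    rw [e3, e1, e2]
    nth_rewrite 1 [e0]
    rw [← cfcₙ_sub (fun t : ℝ => t) (fun t : ℝ => t * (phi d t * phi d t)) s (by fun_prop)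
      (by simp) (continuous_id.mul hcs).continuousOn (by simp)]
    rw [← cfcₙ_sub (fun t : ℝ => t - t * (phi d t * phi d t))
      (fun t : ℝ => (phi d t * phi d t) * t) s
      (continuous_id.sub (continuous_id.mul hcs)).continuousOn (by simp)
      (hcs.mul continuous_id).continuousOn (by simp)]
    rw [← cfcₙ_add (fun t : ℝ => t - t * (phi d t * phi d t) - (phi d t * phi d t) * t)
      (fun t : ℝ => (phi d t * phi d t) * t * (phi d t * phi d t)) s
      ((continuous_id.sub (continuous_id.mul hcs)).sub (hcs.mul continuous_id)).continuousOn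
      (by simp) ((hcs.mul continuous_id).mul hcs).continuousOn (by simp)]
    congr 1
    funext t
    ring
  have hnorm : ‖∑ j, star (y j) * y j‖ ≤ δ ^ 2 := by
    rw [hsum, hcalc]
    refine norm_cfcₙ_le fun t ht => ?_
    have ht0 : 0 ≤ t := quasispectrum_nonneg_of_nonneg s hs0 t ht
    rw [phi_sq hd0, max_eq_left ht0]
    have h1 : 1 - t / (t + d) = d / (t + d) := by
      field_simp
      ring
    rw [h1, Real.norm_eq_abs, abs_of_nonneg (by positivity), div_pow, ← mul_div_assoc,
      div_le_iff₀ (by positivity)]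
    have h2 : d = 4 * δ ^ 2 := hd
    nlinarith [sq_nonneg (t - d), mul_nonneg (sq_nonneg δ) (sq_nonneg (t - d))]
  have hle : star (y i) * y i ≤ ∑ j, star (y j) * y j :=
    Finset.single_le_sum (f := fun j => star (y j) * y j)
      (fun j _ => star_mul_self_nonneg (y j)) (Finset.mem_univ i)
  have h3 := CStarAlgebra.norm_le_norm_of_nonneg_of_le (star_mul_self_nonneg (y i)) hle
  have h4 : ‖y i‖ * ‖y i‖ ≤ δ ^ 2 := by
    rw [← CStarRing.norm_star_mul_self]
    exact h3.trans hnorm
  have h5 : ‖y i‖ ≤ δ := by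
    nlinarith [norm_nonneg (y i)]
  exact h5

theorem norm_le (s : C) {d : ℝ} (hd : 0 < d) : ‖cfcₙ (phi d) s‖ ≤ 1 :=
  norm_cfcₙ_le fun t _ => abs_phi_le hd t

end Alg

end SE2

/-- approximate units (uses FC) -/
theorem exists_approx_unit (I : GAlg.{u, v} X) {r : ℕ} (e : Fin r → ∀ x, I.fib x)
    (he : ∀ i, e i ∈ I.sec) (δ : ℝ) (hδ : 0 < δ) :
    ∃ b ∈ I.sec, (∀ x, ‖b x‖ ≤ 1) ∧
      ∀ i x, ‖e i x - e i x * (star (b x) * b x)‖ ≤ δ := by
  have hd : (0 : ℝ) < 4 * δ ^ 2 := by positivity
  have hs : (fun x => ∑ j, star (e j x) * e j x) ∈ I.sec := by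
    have key : ∀ S : Finset (Fin r), (fun x => ∑ j ∈ S, star (e j x) * e j x) ∈ I.sec := by
      classical
      intro S
      induction S using Finset.induction_on with
      | empty => simpa using I.zero_mem
      | insert j S hj ih =>
        simp only [Finset.sum_insert hj]
        exact I.add_mem _ (I.mul_mem _ (I.star_mem _ (he j)) _ (he j)) _ ih
    exact key Finset.univ
  obtain ⟨R, _, hR⟩ := SE2.sec_bdd I _ hs
  refine ⟨fun x => cfcₙ (SE2.phi (4 * δ ^ 2)) (∑ j, star (e j x) * e j x), ?_, ?_, ?_⟩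
  · exact cfcn_mem_of_closed I.sec I.add_mem I.smul_mem I.mul_mem I.complete _ hs
      (fun x => isSelfAdjoint_sum _ fun j _ => IsSelfAdjoint.star_mul_self (e j x)) R hR _
      (SE2.phi_cont hd) (SE2.phi_zero _)
  · intro x
    exact SE2.norm_le _ hd
  · intro i x
    exact SE2.est (fun j => e j x) hδ rfl i

end SE

end Pool.Agent.KW
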