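import Pool.Agent.Helper79.KW.Base
import Pool.Agent.Helper87.KW.TA1

/-! KW-TB, TD: compact sets of walks, equivariance. -/

open CategoryTheory Topology
open scoped ENNReal

namespace Pool.Agent.KW

universe u v

section TopSpec

variable {X : Type u} [Groupoid.{u} X] [TopologicalSpace X] [TopologicalSpace (Arr X)]

namespace TB

theorem toProd_injective : Function.Injective (ComposablePair.toProd (X := X)) := by
  rintro ⟨x, y, z, f, g⟩ ⟨x', y', z', f', g'⟩ h
  unfold ComposablePair.toProd at h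
  rw [Prod.mk.injEq, Arr.mk.injEq, Arr.mk.injEq] at h
  obtain ⟨⟨rfl, rfl, h1⟩, ⟨-, rfl, h2⟩⟩ := h
  cases h1
  cases h2
  rfl

theorem isClosedEmbedding_toProd [EtaleGroupoid X] :
    IsClosedEmbedding (ComposablePair.toProd (X := X)) := by
  have hT2 : T2Space X := t2_unit
  refine ⟨⟨⟨rfl⟩, toProd_injective⟩, ?_⟩
  have h1 : Set.range (ComposablePair.toProd (X := X)) =
      {p : Arr X × Arr X | p.1.tgt = p.2.src} := by
    ext ⟨⟨x, y, f⟩, ⟨y', z, g⟩⟩
    constructor
    · rintro ⟨c, hc⟩
      rw [← hc]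
      rfl
    · intro h
      change y = y' at h
      subst h
      exact ⟨⟨x, y, z, f, g⟩, rfl⟩
  rw [h1]
  have hs : Continuous (Arr.src : Arr X → X) := EtaleGroupoid.src_homeo.continuous
  have ht : Continuous (Arr.tgt : Arr X → X) := EtaleGroupoid.tgt_homeo.continuous
  exact isClosed_eq (ht.comp continuous_fst) (hs.comp continuous_snd)

/-- products of compact sets are compact -/
theorem isCompact_mul [EtaleGroupoid X] {L M : Set (Arr X)} (hL : IsCompact L)
    (hM : IsCompact M) :
    IsCompact (ComposablePair.comp '' (ComposablePair.toProd (X := X) ⁻¹' (L ×ˢ M))) :=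
  (isClosedEmbedding_toProd.isCompact_preimage (hL.prod hM)).image EtaleGroupoid.comp_cont

theorem isCompact_inv [EtaleGroupoid X] {K : Set (Arr X)} (hK : IsCompact K) :
    IsCompact (invArr '' K) := hK.image EtaleGroupoid.inv_cont

omit [TopologicalSpace X] [TopologicalSpace (Arr X)] in
theorem quot_self {x : X} (g : Fibre x) : quot g g = unitArr g.1 := by
  unfold quot unitArr
  rw [Groupoid.inv_comp]

omit [TopologicalSpace X] [TopologicalSpace (Arr X)] in
theorem invArr_quot {x : X} (g h : Fibre x) : invArr (quot g h) = quot h g := by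
  unfold invArr quot
  simp [Groupoid.inv_eq_inv]

end TB

open TB

theorem exists_compact_walk [EtaleGroupoid X] (K : Set (Arr X)) (hK : IsCompact K)
    (Q : Set X) (hQ : IsCompact Q) (S : ℕ) : ∃ L : Set (Arr X), IsCompact L ∧
      ∀ (x : X) (p : ℕ → Fibre x), (p 0).1 ∈ Q →
        (∀ i < S, p i = p (i + 1) ∨ EdgeAdj K (p i) (p (i + 1))) → quot (p S) (p 0) ∈ L := by
  induction S with
  | zero =>
    refine ⟨unitArr '' Q, hQ.image EtaleGroupoid.unit_cont, fun x p hp _ => ?_⟩
    rw [quot_self]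
    exact ⟨_, hp, rfl⟩
  | succ S ih =>
    obtain ⟨L, hL, hLw⟩ := ih
    refine ⟨L ∪ ComposablePair.comp '' (ComposablePair.toProd (X := X) ⁻¹' (L ×ˢ (K ∪ invArr '' K))),
      hL.union (isCompact_mul hL (hK.union (isCompact_inv hK))), fun x p hp hw => ?_⟩
    have h1 := hLw x p hp fun i hi => hw i (by omega)
    rcases hw S (by omega) with h2 | h2
    · left
      rw [← h2]
      exact h1
    · right
      have h3 : quot (p (S + 1)) (p S) ∈ K ∪ invArr '' K := by
        rcases h2.2 with h4 | h4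
        · right
          exact ⟨_, h4, invArr_quot _ _⟩
        · left
          exact h4
      refine ⟨⟨(p 0).1, (p S).1, (p (S + 1)).1, Groupoid.inv (p 0).2 ≫ (p S).2,
        Groupoid.inv (p S).2 ≫ (p (S + 1)).2⟩, ⟨h1, h3⟩, ?_⟩
      unfold ComposablePair.comp quot
      simp [Groupoid.inv_eq_inv]

/-- `f` is equivariant: `f_y(g k⁻¹, h k⁻¹) = α_k (f_x(g, h))` -/
theorem equivariant_of_mem [EtaleGroupoid X] (A : GAlg.{u, v} X) (f : MatFam A)
    (hf : f ∈ algCrossed A) {x y : X} (k : x ⟶ y) (g h : Fibre x) :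
    f y ⟨g.1, Groupoid.inv k ≫ g.2⟩ ⟨h.1, Groupoid.inv k ≫ h.2⟩ = A.act k (f x g h) := by
  unfold algCrossed at hf
  induction hf using Submodule.span_induction with
  | mem f hf =>
    obtain ⟨η, _, a, _, rfl⟩ := hf
    unfold genElem
    rw [← A.act_comp]
    have h1 : quot (x := y) ⟨g.1, Groupoid.inv k ≫ g.2⟩ ⟨h.1, Groupoid.inv k ≫ h.2⟩ =
        quot g h := by
      unfold quot
      simp [Groupoid.inv_eq_inv]
    rw [h1]
    have h2 : Groupoid.inv (Groupoid.inv k ≫ g.2) = Groupoid.inv g.2 ≫ k := by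
      simp [Groupoid.inv_eq_inv]
    change A.act (Groupoid.inv (Groupoid.inv k ≫ g.2)) (η (quot g h) • a g.1) = _
    rw [h2]
  | zero =>
    change (0 : A.fib y) = A.act k 0
    rw [map_zero]
  | add f₁ f₂ _ _ ih₁ ih₂ =>
    change f₁ y _ _ + f₂ y _ _ = A.act k (f₁ x g h + f₂ x g h)
    rw [map_add, ih₁, ih₂]
  | smul c f _ ih =>
    change c • f y _ _ = A.act k (c • f x g h)
    rw [map_smul, ih]

end TopSpec

end Pool.Agent.KW
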