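import Pool.Agent.Helper79.KW.Base

open CategoryTheory Topology
open scoped ENNReal

namespace Pool.Agent.KW

universe u v

/-! ## The finite-dimensional key estimate (pieces LA1 - LA4)

`W`, `F` finite; for `k : Fin n`, `h k : W → W → ℝ` has values in `[0,1]` and at most one nonzero
entry in each row and column; `E k : F → F → Prop` is a partial matching (edges of index `k`);
`μ > 0` are vertex weights on `F`. -/

namespace Key

open Classical in
/-- the weight of the edge `(y,z)` of index `k` -/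
noncomputable def wt {n : ℕ} {F : Type u} (E : Fin n → F → F → Prop) (μ : F → ℝ) (k : Fin n)
    (y z : F) : ℝ := if E k y z then min (μ y) (μ z) else 0

/-- the normalised edge weight (a partial isometry type matrix) -/
noncomputable def cM {n : ℕ} {F : Type u} (E : Fin n → F → F → Prop) (μ : F → ℝ) (k : Fin n)
    (y z : F) : ℝ := wt E μ k y z / (√(μ y) * √(μ z))

/-- the degree -/
noncomputable def deg {n : ℕ} {F : Type u} [Fintype F] (E : Fin n → F → F → Prop) (μ : F → ℝ)
    (y : F) : ℝ := (∑ k, ∑ z, (wt E μ k y z + wt E μ k z y)) / μ y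

/-- the matrix `∑ (h_k ⊗ c_k + h_k* ⊗ c_k*)` -/
noncomputable def xM {n : ℕ} {W F : Type u} (h : Fin n → W → W → ℝ) (E : Fin n → F → F → Prop)
    (μ : F → ℝ) (p q : W × F) : ℝ :=
  ∑ k, (h k p.1 q.1 * cM E μ k p.2 q.2 + h k q.1 p.1 * cM E μ k q.2 p.2)

open Classical in
/-- the matrix `A = (1 ⊗ D - x) / (2N)`, with `N = 2n` -/
noncomputable def aM {n : ℕ} {W F : Type u} [Fintype F] (h : Fin n → W → W → ℝ)
    (E : Fin n → F → F → Prop) (μ : F → ℝ) (p q : W × F) : ℝ :=
  ((if p = q then deg E μ p.2 else 0) - xM h E μ p q) / (4 * n)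

/-- standing assumptions -/
structure Data {n : ℕ} {W F : Type u} [Fintype W] [Fintype F] (h : Fin n → W → W → ℝ)
    (E : Fin n → F → F → Prop) (μ : F → ℝ) : Prop where
  npos : 0 < n
  h0 : ∀ k s t, 0 ≤ h k s t
  h1 : ∀ k s t, h k s t ≤ 1
  hrow : ∀ k s t t', h k s t ≠ 0 → h k s t' ≠ 0 → t = t'
  hcol : ∀ k s s' t, h k s t ≠ 0 → h k s' t ≠ 0 → s = s'
  Eirr : ∀ k y, ¬ E k y y
  Erow : ∀ k y z z', E k y z → E k y z' → z = z'
  Ecol : ∀ k y y' z, E k y z → E k y' z → y = y'
  μpos : ∀ y, 0 < μ y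

open Classical in
/-- the isoperimetric assumption: every nonempty subset with at most `S` elements has a large
boundary -/
def Expanding {n : ℕ} {F : Type u} [Fintype F] (E : Fin n → F → F → Prop) (μ : F → ℝ) (ε : ℝ)
    (S : ℕ) : Prop :=
  ∀ P : Finset F, P.Nonempty → P.card ≤ S →
    ε * ∑ y ∈ P, μ y ≤ ∑ y ∈ P, ∑ z ∈ (Finset.univ \ P).filter
      (fun z => ∃ k, E k y z ∨ E k z y), min (μ y) (μ z)

variable {n : ℕ} {W F : Type u} [Fintype W] [Fintype F]

/-- the matrix of `Y` on `W` -/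
noncomputable def yM [DecidableEq W] (h : Fin n → W → W → ℝ) (E : Fin n → F → F → Prop)
    (μ : F → ℝ) (u : W → ℝ) (B₀ : Matrix F F ℂ) (p q : W × F) : ℂ :=
  (xM h E μ p q : ℂ) / (4 * n) + (if p.1 = q.1 then (u p.1 : ℂ) else 0) * B₀ p.2 q.2


end Key

end Pool.Agent.KW
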