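import Pool.Agent.Helper98.KW.KeyDefs

/-! KW-LA1: degree bound, Cheeger inequality, growth of supports. -/

open CategoryTheory Topology
open scoped ENNReal

namespace Pool.Agent.KW

universe u v

namespace Key

variable {n : ℕ} {W F : Type u} [Fintype W] [Fintype F] {h : Fin n → W → W → ℝ}
  {E : Fin n → F → F → Prop} {μ : F → ℝ}

namespace LA1

theorem wt_nonneg (hμ : ∀ y, 0 < μ y) (k : Fin n) (y z : F) : 0 ≤ wt E μ k y z := by
  classical
  unfold wt
  split_ifs
  · exact le_min (hμ y).le (hμ z).le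
  · exact le_rfl

theorem sum_row_le (hd : Data h E μ) (k : Fin n) (y : F) : ∑ z, wt E μ k y z ≤ μ y := by
  classical
  by_cases hex : ∃ z, E k y z
  · obtain ⟨z₀, hz₀⟩ := hex
    rw [Finset.sum_eq_single z₀]
    · unfold wt
      rw [if_pos hz₀]
      exact min_le_left _ _
    · intro z _ hz
      unfold wt
      rw [if_neg]
      intro hh
      exact hz (hd.Erow k y z z₀ hh hz₀)
    · intro hh
      exact absurd (Finset.mem_univ _) hh
  · push Not at hex
    rw [Finset.sum_eq_zero]
    · exact (hd.μpos y).le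
    · intro z _
      unfold wt
      rw [if_neg (hex z)]

theorem sum_col_le (hd : Data h E μ) (k : Fin n) (y : F) : ∑ z, wt E μ k z y ≤ μ y := by
  classical
  by_cases hex : ∃ z, E k z y
  · obtain ⟨z₀, hz₀⟩ := hex
    rw [Finset.sum_eq_single z₀]
    · unfold wt
      rw [if_pos hz₀]
      exact min_le_right _ _
    · intro z _ hz
      unfold wt
      rw [if_neg]
      intro hh
      exact hz (hd.Ecol k z z₀ y hh hz₀)
    · intro hh
      exact absurd (Finset.mem_univ _) hh
  · push Not at hex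
    rw [Finset.sum_eq_zero]
    · exact (hd.μpos y).le
    · intro z _
      unfold wt
      rw [if_neg (hex z)]

theorem sum_wt_le (hd : Data h E μ) (y : F) :
    ∑ k, ∑ z, (wt E μ k y z + wt E μ k z y) ≤ 2 * n * μ y := by
  calc ∑ k, ∑ z, (wt E μ k y z + wt E μ k z y) ≤ ∑ _k : Fin n, (2 * μ y) := by
        refine Finset.sum_le_sum fun k _ => ?_
        rw [Finset.sum_add_distrib]
        have h1 := sum_row_le hd k y
        have h2 := sum_col_le hd k y
        linarith
    _ = 2 * n * μ y := by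
        rw [Finset.sum_const, Finset.card_univ, Fintype.card_fin, nsmul_eq_mul]
        ring

end LA1

open LA1

/-- LA1a: the degree is at most `N = 2n` -/
theorem deg_le (hd : Data h E μ) (y : F) : 0 ≤ deg E μ y ∧ deg E μ y ≤ 2 * n := by
  unfold deg
  refine ⟨div_nonneg (Finset.sum_nonneg fun k _ => Finset.sum_nonneg fun z _ =>
    add_nonneg (wt_nonneg hd.μpos k y z) (wt_nonneg hd.μpos k z y)) (hd.μpos y).le, ?_⟩
  rw [div_le_iff₀ (hd.μpos y)]
  exact sum_wt_le hd y

namespace LA1

omit [Fintype F] in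
/-- comonotone decomposition of differences -/
theorem abs_diff_split {Q : Finset F} [DecidableEq F] {g : F → ℝ} {c : ℝ} (hc : 0 ≤ c)
    (hg : ∀ y ∈ Q, c ≤ g y) (hg0 : ∀ y ∉ Q, g y = 0) (y z : F) :
    |g y - g z| = c * |(if y ∈ Q then (1 : ℝ) else 0) - (if z ∈ Q then (1 : ℝ) else 0)| +
      |(g y - if y ∈ Q then c else 0) - (g z - if z ∈ Q then c else 0)| := by
  by_cases hy : y ∈ Q <;> by_cases hz : z ∈ Q
  · simp [hy, hz]
  · simp only [hy, hz, if_true, if_false, hg0 z hz, sub_zero, abs_one, mul_one]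
    have h1 := hg y hy
    rw [abs_of_nonneg (by linarith), abs_of_nonneg (by linarith)]
    ring
  · simp only [hy, hz, if_true, if_false, hg0 y hy, sub_zero, zero_sub, abs_neg, abs_one, mul_one]
    have h1 := hg z hz
    rw [abs_of_nonneg (by linarith), abs_of_nonneg (by linarith)]
    ring
  · simp [hy, hz, hg0 y hy, hg0 z hz]

theorem coarea [DecidableEq F] (w : F → F → ℝ) (ν : F → ℝ) (P : Finset F)
    (hP : ∀ Q ⊆ P, Q.Nonempty → ∑ y ∈ Q, ν y ≤
      ∑ y ∈ Q, ∑ z ∈ Finset.univ \ Q, (w y z + w z y)) :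
    ∀ m : ℕ, ∀ g : F → ℝ, (∀ y, 0 ≤ g y) → (∀ y ∉ P, g y = 0) →
      (Finset.univ.filter fun y => g y ≠ 0).card = m →
      ∑ y, ν y * g y ≤ ∑ y, ∑ z, w y z * |g y - g z| := by
  intro m
  induction m using Nat.strong_induction_on with
  | _ m ih =>
    intro g hg hgP hm
    set Q := Finset.univ.filter fun y => g y ≠ 0 with hQ
    have hmemQ : ∀ y, y ∈ Q ↔ g y ≠ 0 := fun y => by simp [hQ]
    have hg0 : ∀ y ∉ Q, g y = 0 := fun y hy => by
      by_contra hh
      exact hy ((hmemQ y).2 hh)
    rcases Q.eq_empty_or_nonempty with hQe | hQne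
    · have hall : ∀ y, g y = 0 := fun y => hg0 y (by rw [hQe]; simp)
      simp [hall]
    obtain ⟨y₀, hy₀, hmin⟩ := Finset.exists_min_image Q g hQne
    set c := g y₀ with hc
    have hc0 : 0 < c := lt_of_le_of_ne (hg y₀) (Ne.symm ((hmemQ y₀).1 hy₀))
    set g' : F → ℝ := fun y => g y - if y ∈ Q then c else 0 with hg'
    have hg'0 : ∀ y, 0 ≤ g' y := by
      intro y
      simp only [hg']
      split_ifs with hy
      · have := hmin y hy
        linarith
      · rw [sub_zero]
        exact hg y
    have hg'P : ∀ y ∉ P, g' y = 0 := by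
      intro y hy
      have h1 : y ∉ Q := fun h2 => (hmemQ y).1 h2 (hgP y hy)
      simp only [hg', h1, if_false, sub_zero]
      exact hgP y hy
    have hlt : (Finset.univ.filter fun y => g' y ≠ 0).card < m := by
      rw [← hm]
      apply Finset.card_lt_card
      refine ⟨?_, ?_⟩
      · intro y hy
        rw [Finset.mem_filter] at hy
        by_contra hh
        apply hy.2
        simp only [hg', hh, if_false, sub_zero]
        exact hg0 y hh
      · intro hh
        have h1 := hh hy₀
        rw [Finset.mem_filter] at h1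
        apply h1.2
        simp only [hg', hy₀, if_true]
        exact sub_self _
    have hih := ih _ hlt g' hg'0 hg'P rfl
    have hQP : Q ⊆ P := by
      intro y hy
      by_contra hh
      exact (hmemQ y).1 hy (hgP y hh)
    have h1 := hP Q hQP hQne
    have h2 : ∑ y, ∑ z, w y z *
        |(if y ∈ Q then (1 : ℝ) else 0) - (if z ∈ Q then (1 : ℝ) else 0)| =
        ∑ y ∈ Q, ∑ z ∈ Finset.univ \ Q, (w y z + w z y) := by
      have e1 : ∀ y z, w y z * |(if y ∈ Q then (1 : ℝ) else 0) - (if z ∈ Q then (1 : ℝ) else 0)| =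
          (if y ∈ Q then (if z ∈ Finset.univ \ Q then w y z else 0) else 0) +
          (if z ∈ Q then (if y ∈ Finset.univ \ Q then w y z else 0) else 0) := by
        intro y z
        by_cases hy : y ∈ Q <;> by_cases hz : z ∈ Q <;> simp [hy, hz]
      simp only [e1, Finset.sum_add_distrib]
      congr 1
      · rw [← Finset.sum_filter_add_sum_filter_not Finset.univ (fun y => y ∈ Q)]
        rw [Finset.sum_eq_zero (s := Finset.univ.filter fun y => y ∉ Q), add_zero]
        · have : Finset.univ.filter (fun y => y ∈ Q) = Q := by ext; simp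
          rw [this]
          refine Finset.sum_congr rfl fun y hy => ?_
          simp only [hy, if_true]
          rw [← Finset.sum_filter]
          congr 1
          ext z
          simp
        · intro y hy
          rw [Finset.mem_filter] at hy
          simp [hy.2]
      · rw [Finset.sum_comm]
        rw [← Finset.sum_filter_add_sum_filter_not Finset.univ (fun y => y ∈ Q)]
        rw [Finset.sum_eq_zero (s := Finset.univ.filter fun y => y ∉ Q), add_zero]
        · have : Finset.univ.filter (fun y => y ∈ Q) = Q := by ext; simp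
          rw [this]
          refine Finset.sum_congr rfl fun y hy => ?_
          simp only [hy, if_true]
          rw [← Finset.sum_filter]
          congr 1
          ext z
          simp
        · intro y hy
          rw [Finset.mem_filter] at hy
          simp [hy.2]
    have h3 : ∑ y, ∑ z, w y z * |g y - g z| =
        c * ∑ y ∈ Q, ∑ z ∈ Finset.univ \ Q, (w y z + w z y) +
          ∑ y, ∑ z, w y z * |g' y - g' z| := by
      rw [← h2, Finset.mul_sum, ← Finset.sum_add_distrib]
      refine Finset.sum_congr rfl fun y _ => ?_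
      rw [Finset.mul_sum, ← Finset.sum_add_distrib]
      refine Finset.sum_congr rfl fun z _ => ?_
      rw [abs_diff_split hc0.le hmin hg0 y z]
      ring
    have h4 : ∑ y, ν y * g y = c * ∑ y ∈ Q, ν y + ∑ y, ν y * g' y := by
      have e1 : c * ∑ y ∈ Q, ν y = ∑ y, ν y * (if y ∈ Q then c else 0) := by
        rw [Finset.mul_sum]
        simp only [mul_ite, mul_zero]
        rw [← Finset.sum_filter]
        have : Finset.univ.filter (fun y => y ∈ Q) = Q := by ext; simp
        rw [this]
        exact Finset.sum_congr rfl fun y _ => mul_comm _ _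
      rw [e1, ← Finset.sum_add_distrib]
      refine Finset.sum_congr rfl fun y _ => ?_
      simp only [hg']
      ring
    rw [h3, h4]
    exact add_le_add (mul_le_mul_of_nonneg_left h1 hc0.le) hih

end LA1

/-- LA1b: Cheeger inequality (real functions on the graph) -/
theorem cheeger (hd : Data h E μ) {ε : ℝ} (hε : 0 < ε) {S : ℕ} (hE : Expanding E μ ε S)
    (g : F → ℝ) (hg : ∀ y, 0 ≤ g y) (P : Finset F) (hP : P.card ≤ S) (hgP : ∀ y ∉ P, g y = 0) :
    ε ^ 2 / (4 * n) * ∑ y, μ y * g y ^ 2 ≤ ∑ k, ∑ y, ∑ z, wt E μ k y z * (g y - g z) ^ 2 := by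
  classical
  set w : F → F → ℝ := fun y z => ∑ k, wt E μ k y z with hw
  have hw0 : ∀ y z, 0 ≤ w y z := fun y z =>
    Finset.sum_nonneg fun k _ => wt_nonneg hd.μpos k y z
  -- coarea
  have hco := coarea w (fun y => ε * μ y) P (by
    intro Q hQP hQ
    have h1 := hE Q hQ ((Finset.card_le_card hQP).trans hP)
    rw [← Finset.mul_sum]
    refine h1.trans (Finset.sum_le_sum fun y _ => ?_)
    rw [Finset.sum_filter]
    refine Finset.sum_le_sum fun z _ => ?_
    split_ifs with hex
    · obtain ⟨k, hk | hk⟩ := hex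
      · have h2 : wt E μ k y z ≤ w y z :=
          Finset.single_le_sum (f := fun k => wt E μ k y z)
            (fun k _ => wt_nonneg hd.μpos k y z) (Finset.mem_univ k)
        have h3 : wt E μ k y z = min (μ y) (μ z) := by
          unfold wt
          rw [if_pos hk]
        linarith [hw0 z y]
      · have h2 : wt E μ k z y ≤ w z y :=
          Finset.single_le_sum (f := fun k => wt E μ k z y)
            (fun k _ => wt_nonneg hd.μpos k z y) (Finset.mem_univ k)
        have h3 : wt E μ k z y = min (μ y) (μ z) := by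
          unfold wt
          rw [if_pos hk, min_comm]
        linarith [hw0 y z]
    · exact add_nonneg (hw0 y z) (hw0 z y)) _ (fun y => g y ^ 2) (fun y => sq_nonneg _)
    (fun y hy => by rw [hgP y hy]; norm_num) rfl
  set s := ∑ y, μ y * g y ^ 2 with hs
  set T := ∑ k, ∑ y, ∑ z, wt E μ k y z * (g y - g z) ^ 2 with hT
  have hs0 : 0 ≤ s := Finset.sum_nonneg fun y _ => mul_nonneg (hd.μpos y).le (sq_nonneg _)
  have hT0 : 0 ≤ T := Finset.sum_nonneg fun k _ => Finset.sum_nonneg fun y _ =>
    Finset.sum_nonneg fun z _ => mul_nonneg (wt_nonneg hd.μpos k y z) (sq_nonneg _)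
  have hTw : T = ∑ y, ∑ z, w y z * (g y - g z) ^ 2 := by
    rw [hT, Finset.sum_comm]
    refine Finset.sum_congr rfl fun y _ => ?_
    rw [Finset.sum_comm]
    refine Finset.sum_congr rfl fun z _ => ?_
    rw [hw, Finset.sum_mul]
  have hn : (0 : ℝ) < n := by exact_mod_cast hd.npos
  have h1 : ε * s ≤ ∑ y, ∑ z, w y z * |g y ^ 2 - g z ^ 2| := by
    refine le_trans (le_of_eq ?_) hco
    rw [hs, Finset.mul_sum]
    exact Finset.sum_congr rfl fun y _ => by ring
  -- Cauchy-Schwarz
  have hU : ∑ y, ∑ z, w y z * (g y + g z) ^ 2 ≤ 4 * n * s := by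
    have h2 : ∑ y, ∑ z, w y z * (g y + g z) ^ 2 ≤
        ∑ y, ∑ z, (2 * (w y z * g y ^ 2) + 2 * (w y z * g z ^ 2)) := by
      refine Finset.sum_le_sum fun y _ => Finset.sum_le_sum fun z _ => ?_
      nlinarith [hw0 y z, mul_nonneg (hw0 y z) (sq_nonneg (g y - g z))]
    have h3 : ∑ y, ∑ z, (2 * (w y z * g y ^ 2) + 2 * (w y z * g z ^ 2)) =
        2 * ∑ y, g y ^ 2 * ∑ k, ∑ z, (wt E μ k y z + wt E μ k z y) := by
      have e1 : ∀ y, ∑ k, ∑ z, (wt E μ k y z + wt E μ k z y) = ∑ z, w y z + ∑ z, w z y := by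
        intro y
        rw [hw, Finset.sum_comm, ← Finset.sum_add_distrib]
        exact Finset.sum_congr rfl fun z _ => Finset.sum_add_distrib
      simp only [e1]
      rw [Finset.mul_sum]
      simp only [Finset.sum_add_distrib]
      have e2 : ∑ y, ∑ z, 2 * (w y z * g z ^ 2) = ∑ y, ∑ z, 2 * (w z y * g y ^ 2) :=
        Finset.sum_comm
      rw [e2, ← Finset.sum_add_distrib]
      refine Finset.sum_congr rfl fun y _ => ?_
      rw [← Finset.mul_sum, ← Finset.mul_sum, ← Finset.sum_mul, ← Finset.sum_mul]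
      ring
    have h4 : ∑ y, g y ^ 2 * ∑ k, ∑ z, (wt E μ k y z + wt E μ k z y) ≤ 2 * n * s := by
      rw [hs, Finset.mul_sum]
      refine Finset.sum_le_sum fun y _ => ?_
      have := mul_le_mul_of_nonneg_left (sum_wt_le hd y) (sq_nonneg (g y))
      linarith
    linarith
  have hCS : (∑ y, ∑ z, w y z * |g y ^ 2 - g z ^ 2|) ^ 2 ≤
      T * ∑ y, ∑ z, w y z * (g y + g z) ^ 2 := by
    rw [hTw]
    have e1 : ∀ f : F → F → ℝ, ∑ y, ∑ z, f y z = ∑ p : F × F, f p.1 p.2 := fun f =>
      (Fintype.sum_prod_type' f).symm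
    rw [e1, e1, e1]
    have h2 := Finset.sum_mul_sq_le_sq_mul_sq Finset.univ
      (fun p : F × F => √(w p.1 p.2) * |g p.1 - g p.2|)
      (fun p : F × F => √(w p.1 p.2) * |g p.1 + g p.2|)
    have e2 : ∀ p : F × F, √(w p.1 p.2) * |g p.1 - g p.2| * (√(w p.1 p.2) * |g p.1 + g p.2|) =
        w p.1 p.2 * |g p.1 ^ 2 - g p.2 ^ 2| := by
      intro p
      have e3 : g p.1 ^ 2 - g p.2 ^ 2 = (g p.1 - g p.2) * (g p.1 + g p.2) := by ring
      rw [e3, abs_mul]
      have e4 := Real.mul_self_sqrt (hw0 p.1 p.2)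
      calc _ = (√(w p.1 p.2) * √(w p.1 p.2)) * (|g p.1 - g p.2| * |g p.1 + g p.2|) := by ring
        _ = _ := by rw [e4]
    have e5 : ∀ (p : F × F) (r : ℝ), (√(w p.1 p.2) * |r|) ^ 2 = w p.1 p.2 * r ^ 2 := by
      intro p r
      rw [mul_pow, Real.sq_sqrt (hw0 p.1 p.2), sq_abs]
    simp only [e2, e5] at h2
    exact h2
  have h5 : (ε * s) ^ 2 ≤ T * (4 * n * s) :=
    calc (ε * s) ^ 2 ≤ (∑ y, ∑ z, w y z * |g y ^ 2 - g z ^ 2|) ^ 2 :=
          pow_le_pow_left₀ (mul_nonneg hε.le hs0) h1 2
      _ ≤ _ := hCS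
      _ ≤ _ := mul_le_mul_of_nonneg_left hU hT0
  rcases hs0.eq_or_lt with h6 | h6
  · rw [← h6, mul_zero]
    exact hT0
  · have h7 : ε ^ 2 * s ≤ T * (4 * n) := by
      have : s * (ε ^ 2 * s) ≤ s * (T * (4 * n)) := by nlinarith
      exact le_of_mul_le_mul_left this h6
    rw [div_mul_eq_mul_div, div_le_iff₀ (by positivity)]
    exact h7

namespace LA1

open Classical in
/-- closed neighbourhood -/
noncomputable def nb (E : Fin n → F → F → Prop) (y : F) : Finset F :=
  {y} ∪ Finset.univ.biUnion fun k : Fin n =>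
    (Finset.univ.filter fun z => E k y z) ∪ (Finset.univ.filter fun z => E k z y)

theorem card_nb (hd : Data h E μ) (y : F) : (nb E y).card ≤ 2 * n + 1 := by
  classical
  unfold nb
  refine (Finset.card_union_le _ _).trans ?_
  rw [Finset.card_singleton, add_comm]
  refine Nat.add_le_add_right (Finset.card_biUnion_le.trans ?_) 1
  calc _ ≤ ∑ _k : Fin n, 2 := by
        refine Finset.sum_le_sum fun k _ => (Finset.card_union_le _ _).trans ?_
        have h1 : (Finset.univ.filter fun z => E k y z).card ≤ 1 := by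
          rw [Finset.card_le_one]
          intro a ha b hb
          exact hd.Erow k y a b (Finset.mem_filter.1 ha).2 (Finset.mem_filter.1 hb).2
        have h2 : (Finset.univ.filter fun z => E k z y).card ≤ 1 := by
          rw [Finset.card_le_one]
          intro a ha b hb
          exact hd.Ecol k a b y (Finset.mem_filter.1 ha).2 (Finset.mem_filter.1 hb).2
        exact add_le_add h1 h2
    _ = 2 * n := by
        rw [Finset.sum_const, Finset.card_univ, Fintype.card_fin, smul_eq_mul, mul_comm]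

theorem aM_eq_zero {q r : W × F} (hq : q.2 ∉ nb E r.2) : aM h E μ q r = 0 := by
  classical
  have h1 : q.2 ≠ r.2 := fun h2 => hq (by
    unfold nb
    rw [h2]
    exact Finset.mem_union_left _ (Finset.mem_singleton_self _))
  have h2 : ∀ k, ¬ E k q.2 r.2 := fun k hk => hq (by
    unfold nb
    refine Finset.mem_union_right _ (Finset.mem_biUnion.2 ⟨k, Finset.mem_univ _, ?_⟩)
    exact Finset.mem_union_right _ (Finset.mem_filter.2 ⟨Finset.mem_univ _, hk⟩))
  have h3 : ∀ k, ¬ E k r.2 q.2 := fun k hk => hq (by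
    unfold nb
    refine Finset.mem_union_right _ (Finset.mem_biUnion.2 ⟨k, Finset.mem_univ _, ?_⟩)
    exact Finset.mem_union_left _ (Finset.mem_filter.2 ⟨Finset.mem_univ _, hk⟩))
  unfold aM xM cM wt
  have h4 : q ≠ r := fun h5 => h1 (by rw [h5])
  rw [if_neg h4]
  simp [h2, h3]

end LA1

open Classical in
/-- LA1c: growth of supports: the `p`-th column of `(1 - A)^j` is supported on `(2n+1)^j` points
of `F` (times `W`) -/
theorem support_pow (hd : Data h E μ) (p : W × F) (j : ℕ) :
    ∃ P : Finset F, P.card ≤ (2 * n + 1) ^ j ∧ ∀ q : W × F, q.2 ∉ P →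
      ((1 - Matrix.of fun p q => (aM h E μ p q : ℂ) : Matrix (W × F) (W × F) ℂ) ^ j) q p = 0 := by
  induction j with
  | zero =>
    refine ⟨{p.2}, by simp, fun q hq => ?_⟩
    rw [pow_zero, Matrix.one_apply, if_neg]
    rintro rfl
    exact hq (Finset.mem_singleton_self _)
  | succ j ih =>
    obtain ⟨P, hP, hPs⟩ := ih
    refine ⟨P.biUnion fun y => nb E y, ?_, fun q hq => ?_⟩
    · calc _ ≤ ∑ y ∈ P, (nb E y).card := Finset.card_biUnion_le
        _ ≤ ∑ _y ∈ P, (2 * n + 1) := Finset.sum_le_sum fun y _ => card_nb hd y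
        _ = P.card * (2 * n + 1) := by rw [Finset.sum_const, smul_eq_mul]
        _ ≤ (2 * n + 1) ^ j * (2 * n + 1) := Nat.mul_le_mul_right _ hP
        _ = _ := (pow_succ _ _).symm
    · rw [pow_succ', Matrix.mul_apply]
      refine Finset.sum_eq_zero fun r _ => ?_
      by_cases hr : r.2 ∈ P
      · have h1 : q.2 ∉ nb E r.2 := fun h2 => hq (Finset.mem_biUnion.2 ⟨r.2, hr, h2⟩)
        have h2 : q ≠ r := fun h3 => h1 (by
          rw [h3]
          unfold nb
          exact Finset.mem_union_left _ (Finset.mem_singleton_self _))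
        rw [Matrix.sub_apply, Matrix.one_apply, if_neg h2, Matrix.of_apply, aM_eq_zero h1]
        simp
      · rw [hPs r hr, mul_zero]

end Key

end Pool.Agent.KW
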